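import Mathlib

/-!
# The endomorphism monoid of the random graph is a product of three commutative submonoids

We show that `cmw (End R) ≤ 3` for the random graph `R`. This gives a positive answer to the
question whether at least one of the monoids `Aut(ℚ,≤)`, `Aut(R)`, `End(ℚ,≤)`, `End(R)` has finite
commutative submonoid width.

Idea. For a countable graph `B` let `T B` be the graph obtained from `B` by adding iteratively a
vertex for every finite list of vertices. Then `T B` is a copy of the random graph, every
endomorphism of `B` extends functorially to `T B`, and each homomorphism from `B` to a random graph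
extends to `T B`. For `B` we take the disjoint union of `R`, `R × R` and `R`. For `f ∈ End R` let
`g_f` be the endomorphism of `B` which maps `x` in the first summand to `(x, f x)`, maps `(x, y)` to
`x` in the third summand, and is the identity on the third summand. All products of two of these
maps are equal to one and the same map, hence these maps commute, and `f` is the composition of the
inclusion of the first summand, of `g_f`, and of the map `B → R` which is the identity on the first
and on the third summand and the second projection on `R × R`.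
-/

namespace Pool.Agent.Results.MP_697e97_al.EndRandomGraph

/-! ## Definitions -/

/-- The defining property of the random graph: for disjoint finite vertex sets `U`, `W` some vertex
outside `U ∪ W` is adjacent to every vertex of `U` and to no vertex of `W`. A random graph is a
countable graph with this property; it is unique up to isomorphism. -/
def IsRandomGraph {V : Type} (G : SimpleGraph V) : Prop :=
  ∀ U W : Finset V, Disjoint U W →
    ∃ z, z ∉ U ∧ z ∉ W ∧ (∀ u ∈ U, G.Adj z u) ∧ ∀ w ∈ W, ¬ G.Adj z w

/-- `M = C_1 C_2 ⋯ C_n` for some commutative submonoids `C_1, …, C_n` of `M`. -/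
def IsProductOfCommutative (M : Type) [Monoid M] (n : ℕ) : Prop :=
  ∃ C : Fin n → Submonoid M, (∀ i, ∀ a ∈ C i, ∀ b ∈ C i, a * b = b * a) ∧
    ∀ x : M, ∃ c : Fin n → M, (∀ i, c i ∈ C i) ∧ (List.ofFn c).prod = x

/-- The commutative submonoid width of a monoid: the least `n` such that `M` is a product of `n`
commutative submonoids (`⊤` if there is none). -/
noncomputable def cmw (M : Type) [Monoid M] : ℕ∞ :=
  ⨅ (n : ℕ) (_ : IsProductOfCommutative M n), (n : ℕ∞)

/-! ## The closure of a graph -/

/-- vertices of the closure: the vertices of `B` and finite lists of vertices -/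
inductive T (B : Type) : Type
  | base : B → T B
  | nil : T B
  | cons : T B → T B → T B

namespace T

variable {B B' : Type}

/-- `a` is an entry of the list `t` -/
inductive Mem (a : T B) : T B → Prop
  | head (l : T B) : Mem a (T.cons a l)
  | tail (c l : T B) : Mem a l → Mem a (T.cons c l)

/-- size of a term -/
def size : T B → ℕ
  | base _ => 1
  | nil => 1
  | cons a l => size a + size l + 1

lemma size_lt {s t : T B} (h : Mem s t) : size s < size t := by
  induction h with
  | head l => simp only [size]; omega
  | tail c l _ ih => simp only [size]; omega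

/-- functoriality -/
def map (φ : B → B') : T B → T B'
  | base b => base (φ b)
  | nil => nil
  | cons a l => cons (map φ a) (map φ l)

lemma map_mem (φ : B → B') {s t : T B} (h : Mem s t) : Mem (map φ s) (map φ t) := by
  induction h with
  | head l => exact Mem.head _
  | tail c l _ ih => exact Mem.tail _ _ ih

lemma map_id' (t : T B) : map id t = t := by
  induction t with
  | base b => rfl
  | nil => rfl
  | cons a l iha ihl => rw [map, iha, ihl]

lemma map_comp' {B'' : Type} (ψ : B' → B'') (φ : B → B') (t : T B) :
    map (ψ ∘ φ) t = map ψ (map φ t) := by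
  induction t with
  | base b => rfl
  | nil => rfl
  | cons a l iha ihl => rw [map, map, map, iha, ihl]

lemma countable_aux [Countable B] (n : ℕ) : {t : T B | size t ≤ n}.Countable := by
  induction n with
  | zero =>
    have : {t : T B | size t ≤ 0} = ∅ := by
      ext t
      constructor
      · intro h
        have h' : size t ≤ 0 := h
        cases t <;> simp [size] at h'
      · intro h; exact absurd h (Set.notMem_empty _)
    rw [this]; exact Set.countable_empty
  | succ n ih =>
    have : {t : T B | size t ≤ n + 1} ⊆ Set.range base ∪ {nil} ∪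
        Set.image2 cons {t : T B | size t ≤ n} {t : T B | size t ≤ n} := by
      intro t ht
      cases t with
      | base b => left; left; exact ⟨b, rfl⟩
      | nil => left; right; rfl
      | cons a l =>
        right
        have h : size a + size l + 1 ≤ n + 1 := ht
        refine ⟨a, ?_, l, ?_, rfl⟩
        · show size a ≤ n
          omega
        · show size l ≤ n
          omega
    exact ((Set.countable_range _).union (Set.countable_singleton _)).union
      (ih.image2 ih _) |>.mono this

instance [Countable B] : Countable (T B) := by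
  rw [← Set.countable_univ_iff]
  have : (Set.univ : Set (T B)) = ⋃ n, {t : T B | size t ≤ n} := by
    ext t
    simp only [Set.mem_univ, Set.mem_iUnion, true_iff]
    refine ⟨size t, ?_⟩
    show size t ≤ size t
    exact le_refl _
  rw [this]
  exact Set.countable_iUnion countable_aux

lemma mem_cons {a c l : T B} : Mem a (cons c l) ↔ a = c ∨ Mem a l := by
  constructor
  · intro h
    cases h with
    | head => left; rfl
    | tail _ _ h => right; exact h
  · rintro (rfl | h)
    · exact Mem.head _
    · exact Mem.tail _ _ h

/-- the graph on the closure -/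
def graph (G : SimpleGraph B) : SimpleGraph (T B) where
  Adj s t := (∃ b c, s = base b ∧ t = base c ∧ G.Adj b c) ∨ Mem s t ∨ Mem t s
  symm := ⟨by
    rintro s t (⟨b, c, hs, ht, h⟩ | h | h)
    · left; exact ⟨c, b, ht, hs, h.symm⟩
    · right; right; exact h
    · right; left; exact h⟩
  loopless := ⟨by
    rintro s (⟨b, c, hs, ht, h⟩ | h | h)
    · rw [hs] at ht
      cases ht
      exact G.loopless.irrefl b h
    · exact lt_irrefl _ (size_lt h)
    · exact lt_irrefl _ (size_lt h)⟩

/-- a term of large size -/
def pad : ℕ → T B
  | 0 => nil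
  | n + 1 => cons (pad n) nil

lemma size_pad (n : ℕ) : n < size (pad n : T B) := by
  induction n with
  | zero => simp [pad, size]
  | succ n ih => simp only [pad, size]; omega

/-- the term of a list -/
def ofList : List (T B) → T B
  | [] => nil
  | a :: l => cons a (ofList l)

lemma mem_ofList {a : T B} {l : List (T B)} : Mem a (ofList l) ↔ a ∈ l := by
  induction l with
  | nil =>
    constructor
    · intro h; cases h
    · intro h; cases h
  | cons c l ih =>
    constructor
    · intro h
      cases h with
      | head => exact List.mem_cons_self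
      | tail _ _ h => exact List.mem_cons_of_mem _ (ih.mp h)
    · intro h
      rcases List.mem_cons.mp h with h | h
      · rw [h]; exact Mem.head _
      · exact Mem.tail _ _ (ih.mpr h)

lemma graph_isRandom (G : SimpleGraph B) : IsRandomGraph (graph G) := by
  classical
  intro U W hUW
  set N := (U ∪ W).sup size with hN
  have hle : ∀ t ∈ U ∪ W, size t ≤ N := fun t ht => Finset.le_sup ht
  set z : T B := cons (pad N) (ofList U.toList) with hz
  have hsz : N < size z := by
    have := size_pad (B := B) N
    rw [hz]; simp only [size]; omega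
  refine ⟨z, ?_, ?_, ?_, ?_⟩
  · intro h
    have := hle z (Finset.mem_union_left _ h)
    omega
  · intro h
    have := hle z (Finset.mem_union_right _ h)
    omega
  · intro u hu
    right; right
    exact Mem.tail _ _ (mem_ofList.mpr (Finset.mem_toList.mpr hu))
  · intro w hw h
    have hsw := hle w (Finset.mem_union_right _ hw)
    rcases h with ⟨b, c, h1, -, -⟩ | h | h
    · rw [hz] at h1; cases h1
    · have := size_lt h
      omega
    · rcases mem_cons.mp h with h | h
      · have := size_pad (B := B) N
        rw [h] at hsw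
        omega
      · have := Finset.mem_toList.mp (mem_ofList.mp h)
        exact Finset.disjoint_left.mp hUW this hw

/-- extension of homomorphisms to the closure, functorially -/
def mapHom {G : SimpleGraph B} {G' : SimpleGraph B'} (φ : G →g G') : graph G →g graph G' where
  toFun := map φ
  map_rel' := by
    rintro s t (⟨b, c, hs, ht, h⟩ | h | h)
    · left
      exact ⟨φ b, φ c, by rw [hs]; rfl, by rw [ht]; rfl, φ.map_rel h⟩
    · right; left; exact map_mem _ h
    · right; right; exact map_mem _ h

/-- the extension as a homomorphism of monoids -/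
def mapEnd (G : SimpleGraph B) : (G →g G) →* (graph G →g graph G) where
  toFun := mapHom
  map_one' := by
    apply RelHom.ext
    intro t
    exact map_id' t
  map_mul' := by
    intro φ ψ
    apply RelHom.ext
    intro t
    exact map_comp' φ ψ t

/-- auxiliary recursion for the extension of a map into a random graph -/
def extAux {V : Type} (p : B → V) (nbr : List V → V) : T B → V × List V
  | base b => (p b, [])
  | nil => (nbr [], [])
  | cons a l => (nbr ((extAux p nbr a).1 :: (extAux p nbr l).2),
      (extAux p nbr a).1 :: (extAux p nbr l).2)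

lemma extAux_mem {V : Type} (p : B → V) (nbr : List V → V) {s t : T B} (h : Mem s t) :
    (extAux p nbr s).1 ∈ (extAux p nbr t).2 ∧
      (extAux p nbr t).1 = nbr (extAux p nbr t).2 := by
  induction h with
  | head l => exact ⟨List.mem_cons_self, rfl⟩
  | tail c l _ ih => exact ⟨List.mem_cons_of_mem _ ih.1, rfl⟩

/-- Every homomorphism from `B` to a random graph extends to the closure of `B`. -/
lemma exists_extension {V : Type} {G : SimpleGraph B} {H : SimpleGraph V} (hH : IsRandomGraph H)
    (p : G →g H) : ∃ q : graph G →g H, ∀ b, q (base b) = p b := by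
  classical
  have hn : ∀ L : List V, ∃ z, ∀ v ∈ L, H.Adj z v := by
    intro L
    obtain ⟨z, -, -, h, -⟩ := hH L.toFinset ∅ (Finset.disjoint_empty_right _)
    exact ⟨z, fun v hv => h v (List.mem_toFinset.mpr hv)⟩
  choose nbr hnbr using hn
  refine ⟨⟨fun t => (extAux p nbr t).1, ?_⟩, fun b => rfl⟩
  have key : ∀ s t : T B, Mem s t → H.Adj (extAux p nbr t).1 (extAux p nbr s).1 := by
    intro s t h
    obtain ⟨h1, h2⟩ := extAux_mem p nbr h
    rw [h2]
    exact hnbr _ _ h1
  rintro s t (⟨b, c, hs, ht, h⟩ | h | h)
  · rw [hs, ht]
    exact p.map_rel h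
  · exact (key s t h).symm
  · exact key t s h

end T

/-! ## Uniqueness of the random graph -/

section unique

variable {V W : Type} {G : SimpleGraph V} {H : SimpleGraph W}

/-- finite partial isomorphisms -/
def PI (G : SimpleGraph V) (H : SimpleGraph W) (s : Finset (V × W)) : Prop :=
  ∀ a ∈ s, ∀ b ∈ s, (a.1 = b.1 ↔ a.2 = b.2) ∧ (G.Adj a.1 b.1 ↔ H.Adj a.2 b.2)

lemma PI_extend (hH : IsRandomGraph H) {s : Finset (V × W)} (hs : PI G H s) (v : V) :
    ∃ t, PI G H t ∧ s ⊆ t ∧ ∃ w, (v, w) ∈ t := by
  classical
  by_cases hv : ∃ w, (v, w) ∈ s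
  · exact ⟨s, hs, Finset.Subset.refl _, hv⟩
  push Not at hv
  have hdisj : Disjoint ((s.filter (fun b => G.Adj v b.1)).image Prod.snd)
      ((s.filter (fun b => ¬ G.Adj v b.1)).image Prod.snd) := by
    rw [Finset.disjoint_left]
    intro w h1 h2
    rw [Finset.mem_image] at h1 h2
    obtain ⟨a, ha, rfl⟩ := h1
    obtain ⟨b, hb, hab⟩ := h2
    rw [Finset.mem_filter] at ha hb
    have := (hs b hb.1 a ha.1).1.mpr hab
    rw [this] at hb
    exact hb.2 ha.2
  obtain ⟨w, hw1, hw2, hw3, hw4⟩ := hH _ _ hdisj
  have hne : ∀ b ∈ s, v ≠ b.1 := by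
    intro b hb h
    exact hv b.2 (by rw [h]; exact hb)
  have hne' : ∀ b ∈ s, w ≠ b.2 := by
    intro b hb h
    by_cases h1 : G.Adj v b.1
    · exact hw1 (Finset.mem_image.mpr ⟨b, Finset.mem_filter.mpr ⟨hb, h1⟩, h.symm⟩)
    · exact hw2 (Finset.mem_image.mpr ⟨b, Finset.mem_filter.mpr ⟨hb, h1⟩, h.symm⟩)
  have hadj : ∀ b ∈ s, (G.Adj v b.1 ↔ H.Adj w b.2) := by
    intro b hb
    constructor
    · intro h1
      exact hw3 _ (Finset.mem_image.mpr ⟨b, Finset.mem_filter.mpr ⟨hb, h1⟩, rfl⟩)
    · intro h1
      by_contra h2
      exact hw4 _ (Finset.mem_image.mpr ⟨b, Finset.mem_filter.mpr ⟨hb, h2⟩, rfl⟩) h1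
  refine ⟨insert (v, w) s, ?_, Finset.subset_insert _ _, w, Finset.mem_insert_self _ _⟩
  intro a ha b hb
  rw [Finset.mem_insert] at ha hb
  rcases ha with rfl | ha <;> rcases hb with rfl | hb
  · simp
  · refine ⟨⟨fun h => absurd h (hne b hb), fun h => absurd h (hne' b hb)⟩, hadj b hb⟩
  · refine ⟨⟨fun h => absurd h.symm (hne a ha), fun h => absurd h.symm (hne' a ha)⟩, ?_⟩
    rw [G.adj_comm, H.adj_comm]
    exact hadj a ha
  · exact hs a ha b hb

lemma PI_swap [DecidableEq V] [DecidableEq W] {s : Finset (V × W)} (hs : PI G H s) :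
    PI H G (s.image Prod.swap) := by
  intro a ha b hb
  rw [Finset.mem_image] at ha hb
  obtain ⟨a', ha', rfl⟩ := ha
  obtain ⟨b', hb', rfl⟩ := hb
  have := hs a' ha' b' hb'
  exact ⟨this.1.symm, this.2.symm⟩

lemma PI_extend' (hG : IsRandomGraph G) {s : Finset (V × W)} (hs : PI G H s) (w : W) :
    ∃ t, PI G H t ∧ s ⊆ t ∧ ∃ v, (v, w) ∈ t := by
  classical
  obtain ⟨t, ht, hst, v, hv⟩ := PI_extend hG (PI_swap hs) w
  refine ⟨t.image Prod.swap, PI_swap ht, ?_, v, ?_⟩
  · intro a ha
    rw [Finset.mem_image]
    exact ⟨a.swap, hst (Finset.mem_image.mpr ⟨a, ha, rfl⟩), Prod.swap_swap a⟩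
  · rw [Finset.mem_image]
    exact ⟨(w, v), hv, rfl⟩

/-- The random graph is unique up to isomorphism. -/
lemma iso_of_random [Countable V] [Countable W] (hG : IsRandomGraph G) (hH : IsRandomGraph H) :
    Nonempty (G ≃g H) := by
  classical
  have : Encodable V := Encodable.ofCountable V
  have : Encodable W := Encodable.ofCountable W
  let P := {s : Finset (V × W) // PI G H s}
  let D : V ⊕ W → Order.Cofinal P := fun x => Sum.elim
    (fun v => ⟨{s | ∃ w, (v, w) ∈ s.1}, by
      intro s
      obtain ⟨t, ht, hst, hw⟩ := PI_extend hH s.2 v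
      exact ⟨⟨t, ht⟩, hw, hst⟩⟩)
    (fun w => ⟨{s | ∃ v, (v, w) ∈ s.1}, by
      intro s
      obtain ⟨t, ht, hst, hv⟩ := PI_extend' hG s.2 w
      exact ⟨⟨t, ht⟩, hv, hst⟩⟩) x
  let p0 : P := ⟨∅, by intro a ha; simp at ha⟩
  let I := Order.idealOfCofinals p0 D
  have hleft : ∀ v, ∃ w, ∃ s ∈ I, (v, w) ∈ s.1 := by
    intro v
    obtain ⟨s, hs, hsI⟩ := Order.cofinal_meets_idealOfCofinals p0 D (Sum.inl v)
    obtain ⟨w, hw⟩ := hs
    exact ⟨w, s, hsI, hw⟩
  have hright : ∀ w, ∃ v, ∃ s ∈ I, (v, w) ∈ s.1 := by
    intro w
    obtain ⟨s, hs, hsI⟩ := Order.cofinal_meets_idealOfCofinals p0 D (Sum.inr w)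
    obtain ⟨v, hv⟩ := hs
    exact ⟨v, s, hsI, hv⟩
  have hrel : ∀ v w v' w', (∃ s ∈ I, (v, w) ∈ s.1) → (∃ s ∈ I, (v', w') ∈ s.1) →
      (v = v' ↔ w = w') ∧ (G.Adj v v' ↔ H.Adj w w') := by
    rintro v w v' w' ⟨s, hs, hvw⟩ ⟨s', hs', hvw'⟩
    obtain ⟨t, -, ht1, ht2⟩ := I.directed _ hs _ hs'
    exact t.2 (v, w) (ht1 hvw) (v', w') (ht2 hvw')
  choose F hF using hleft
  choose F' hF' using hright
  refine ⟨⟨⟨F, F', ?_, ?_⟩, ?_⟩⟩
  · intro v
    exact (hrel _ _ _ _ (hF' (F v)) (hF v)).1.mpr rfl
  · intro w
    exact (hrel _ _ _ _ (hF (F' w)) (hF' w)).1.mp rfl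
  · intro v v'
    exact (hrel _ _ _ _ (hF v) (hF v')).2.symm

end unique

/-! ## The graph `B = G + G × G + G` -/

section main

variable {V : Type} (G : SimpleGraph V)

/-- the vertex set -/
inductive BV (V : Type) : Type
  | one : V → BV V
  | two : V → V → BV V
  | three : V → BV V

/-- the disjoint union of `G`, `G × G` and `G` -/
def BG : SimpleGraph (BV V) where
  Adj s t := match s, t with
    | .one x, .one y => G.Adj x y
    | .two x y, .two x' y' => G.Adj x x' ∧ G.Adj y y'
    | .three x, .three y => G.Adj x y
    | _, _ => False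
  symm := ⟨by
    intro s t h
    cases s <;> cases t <;> first | exact h.symm | exact ⟨h.1.symm, h.2.symm⟩ | exact h⟩
  loopless := ⟨by
    intro s h
    cases s with
    | one x => exact G.loopless.irrefl x h
    | two x y => exact G.loopless.irrefl x h.1
    | three x => exact G.loopless.irrefl x h⟩

instance [Countable V] : Countable (BV V) := by
  have : Function.Surjective (fun a : V ⊕ (V × V) ⊕ V => match a with
    | Sum.inl x => BV.one x
    | Sum.inr (Sum.inl p) => BV.two p.1 p.2
    | Sum.inr (Sum.inr x) => BV.three x) := by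
    intro b
    cases b with
    | one x => exact ⟨Sum.inl x, rfl⟩
    | two x y => exact ⟨Sum.inr (Sum.inl (x, y)), rfl⟩
    | three x => exact ⟨Sum.inr (Sum.inr x), rfl⟩
  exact this.countable

variable {G}

/-- the endomorphism `g_f` -/
def gg (f : G →g G) : BG G →g BG G where
  toFun b := match b with
    | .one x => .two x (f x)
    | .two x _ => .three x
    | .three x => .three x
  map_rel' := by
    intro s t h
    cases s <;> cases t <;>
      first | exact ⟨h, f.map_rel h⟩ | exact h.1 | exact h | exact absurd h (by simp [BG])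

lemma gg_mul (f f' h h' : G →g G) : gg f * gg f' = gg h * gg h' := by
  apply RelHom.ext
  intro b
  cases b <;> rfl

/-- inclusion of the first summand -/
def iota : G →g BG G where
  toFun := .one
  map_rel' h := h

/-- the projection to `G` -/
def proj : BG G →g G where
  toFun b := match b with
    | .one x => x
    | .two _ y => y
    | .three x => x
  map_rel' := by
    intro s t h
    cases s <;> cases t <;>
      first | exact h | exact h.2 | exact absurd h (by simp [BG])

end main

/-- **Main theorem.** (1) The random graph exists, and it is unique up to isomorphism. (2) For the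
random graph `R` the monoid `End(R)` is a product of three commutative submonoids, hence its
commutative submonoid width is finite, namely at most `3`. -/
theorem result :
    (∃ G : SimpleGraph ℕ, IsRandomGraph G) ∧
    (∀ (V W : Type) [Countable V] [Countable W] (G : SimpleGraph V) (H : SimpleGraph W),
      IsRandomGraph G → IsRandomGraph H → Nonempty (G ≃g H)) ∧
    ∀ (V : Type) [Countable V] (R : SimpleGraph V), IsRandomGraph R →
      IsProductOfCommutative (R →g R) 3 ∧ cmw (R →g R) ≤ 3 := by
  classical
  refine ⟨?_, fun V W _ _ G H hG hH => iso_of_random hG hH, ?_⟩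
  · -- existence
    let E : SimpleGraph Empty := ⊥
    have h0 : IsRandomGraph (T.graph E) := T.graph_isRandom E
    have hinf : Infinite (T Empty) := by
      by_contra hcon
      rw [not_infinite_iff_finite] at hcon
      have : Fintype (T Empty) := Fintype.ofFinite _
      obtain ⟨z, hz, -⟩ := h0 Finset.univ ∅ (Finset.disjoint_empty_right _)
      exact hz (Finset.mem_univ _)
    obtain ⟨e⟩ : Nonempty (T Empty ≃ ℕ) := nonempty_equiv_of_countable
    refine ⟨(T.graph E).map e.toEmbedding, ?_⟩
    intro U W hUW
    obtain ⟨z, h1, h2, h3, h4⟩ := h0 (U.map e.symm.toEmbedding) (W.map e.symm.toEmbedding)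
      ((Finset.disjoint_map _).mpr hUW)
    have hadj : ∀ a b : ℕ, ((T.graph E).map e.toEmbedding).Adj a b ↔
        (T.graph E).Adj (e.symm a) (e.symm b) := by
      intro a b
      have := SimpleGraph.map_adj_apply (G := T.graph E) (f := e.toEmbedding)
        (a := e.symm a) (b := e.symm b)
      simpa using this
    refine ⟨e z, ?_, ?_, ?_, ?_⟩
    · intro h; apply h1
      exact Finset.mem_map.mpr ⟨e z, h, by simp⟩
    · intro h; apply h2
      exact Finset.mem_map.mpr ⟨e z, h, by simp⟩
    · intro u hu
      rw [hadj, Equiv.symm_apply_apply]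
      exact h3 _ (Finset.mem_map.mpr ⟨u, hu, rfl⟩)
    · intro u hu
      rw [hadj, Equiv.symm_apply_apply]
      exact h4 _ (Finset.mem_map.mpr ⟨u, hu, rfl⟩)
  · intro V _ R hR
    have key : IsProductOfCommutative (R →g R) 3 := by
      obtain ⟨θ⟩ := iso_of_random (T.graph_isRandom (BG R)) hR
      obtain ⟨q, hq⟩ := T.exists_extension hR (proj (G := R))
      let θ1 : T.graph (BG R) →g R := θ.toHom
      let θ2 : R →g T.graph (BG R) := θ.symm.toHom
      let ι : R →g T.graph (BG R) := ⟨fun x => T.base (BV.one x), fun {a b} h =>
        Or.inl ⟨_, _, rfl, rfl, h⟩⟩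
      have h21 : ∀ t, θ2 (θ1 t) = t := fun t => θ.symm_apply_apply t
      let c1 : R →g R := q.comp θ2
      let c2 : (R →g R) → (R →g R) := fun f => θ1.comp ((T.mapEnd (BG R) (gg f)).comp θ2)
      let c3 : R →g R := θ1.comp ι
      have hc : ∀ f f' : R →g R, c2 f * c2 f' = θ1.comp ((T.mapEnd (BG R) (gg f * gg f')).comp θ2) := by
        intro f f'
        apply RelHom.ext
        intro x
        rw [map_mul]
        show θ1 (T.mapEnd (BG R) (gg f) (θ2 (θ1 (T.mapEnd (BG R) (gg f') (θ2 x))))) = _
        rw [h21]
        rfl
      have hcomm : ∀ f f' : R →g R, c2 f * c2 f' = c2 f' * c2 f := by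
        intro f f'
        rw [hc, hc, gg_mul f f' f' f]
      refine ⟨![Submonoid.powers c1, Submonoid.closure (Set.range c2), Submonoid.powers c3], ?_, ?_⟩
      · intro i
        fin_cases i
        · rintro a ⟨m, rfl⟩ b ⟨n, rfl⟩
          show c1 ^ m * c1 ^ n = c1 ^ n * c1 ^ m
          rw [← pow_add, ← pow_add, add_comm]
        · intro a ha b hb
          have ha' : a ∈ Submonoid.closure (Set.range c2) := ha
          have hb' : b ∈ Submonoid.closure (Set.range c2) := hb
          refine Submonoid.closure_induction₂ (motive := fun x y _ _ => x * y = y * x) ?_ ?_ ?_ ?_ ?_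
            ha' hb'
          · rintro x y ⟨f, rfl⟩ ⟨f', rfl⟩
            exact hcomm f f'
          · intro x _; rw [one_mul, mul_one]
          · intro x _; rw [one_mul, mul_one]
          · intro x y z _ _ _ h1 h2
            rw [mul_assoc, h2, ← mul_assoc, h1, mul_assoc]
          · intro x y z _ _ _ h1 h2
            rw [← mul_assoc, h1, mul_assoc, h2, ← mul_assoc]
        · rintro a ⟨m, rfl⟩ b ⟨n, rfl⟩
          show c3 ^ m * c3 ^ n = c3 ^ n * c3 ^ m
          rw [← pow_add, ← pow_add, add_comm]
      · intro f
        refine ⟨![c1, c2 f, c3], ?_, ?_⟩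
        · intro i
          fin_cases i
          · exact Submonoid.mem_powers c1
          · exact Submonoid.subset_closure ⟨f, rfl⟩
          · exact Submonoid.mem_powers c3
        · have h1 : (List.ofFn ![c1, c2 f, c3]).prod = c1 * (c2 f * c3) := by
            simp [List.ofFn_succ]
          rw [h1]
          apply RelHom.ext
          intro x
          show q (θ2 (θ1 (T.mapEnd (BG R) (gg f) (θ2 (θ1 (ι x)))))) = f x
          rw [h21, h21]
          exact hq (BV.two x (f x))
    refine ⟨key, ?_⟩
    unfold cmw
    exact iInf₂_le 3 key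

end Pool.Agent.Results.MP_697e97_al.EndRandomGraph
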